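import Pool.Agent.H25G.Fin

/-!
# Elliott's conjecture at all scales for almost every factor and one arbitrary factor

`f_θ` is the completely multiplicative function with `f_θ(p) = exp(2 π i θ_p)` at the primes, where the phases
`θ_p` are independent and uniformly distributed on `[0, 1]`; so, for almost every `θ` means: for almost every
completely multiplicative function `f` with values on the unit circle (Haar measure). Let `c` be any fixed bounded
sequence. For almost every `f`, for all distinct shifts and all nonzero integers `e_1, ..., e_s`, `s ≥ 1`, the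
ordinary averages of `f(n + h_1)^(e_1) ... f(n + h_s)^(e_s) F(n + h_0) c(n)` over `n ≤ x` are `O(1 / log x)` at
EVERY `x ≥ 2`, uniformly in ALL multiplicative functions `F` with values in the closed unit disc, which may depend
on `f` and on `x`. The case `s = 1`, `c = 1` is the two-point case: `f_1` is almost every function, `f_2` is
arbitrary.
-/

set_option autoImplicit false

namespace Pool.Agent.H25G.Old.AllScalesAlmostEveryFactor

open Finset MeasureTheory

/-- multiplicative functions on the positive integers with values in the closed unit disc -/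
def Mult (f : ℕ → ℂ) : Prop :=
  (∀ n, ‖f n‖ ≤ 1) ∧ ∀ m n : ℕ, 1 ≤ m → 1 ≤ n → Nat.Coprime m n → f (m * n) = f m * f n

/-- independent phases `θ_0, θ_1, ...` with the uniform distribution on `[0, 1]`: the product measure -/
noncomputable def P : Measure (ℕ → ℝ) :=
  Measure.infinitePi fun _ => (volume : Measure ℝ).restrict (Set.Icc 0 1)

/-- the completely multiplicative function with the value `exp (2 π i θ_p)` at each prime `p` -/
noncomputable def f (θ : ℕ → ℝ) (n : ℕ) : ℂ :=
  n.factorization.prod fun p k => Complex.exp (2 * Real.pi * Complex.I * θ p) ^ k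

theorem result (c : ℕ → ℂ) (hc : ∀ n, ‖c n‖ ≤ 1) :
    ∀ᵐ θ ∂P, ∀ (s : ℕ) (h : Fin s → ℕ) (e : Fin s → ℤ) (h₀ : ℕ), 1 ≤ s → Function.Injective h →
      (∀ i, h i ≠ h₀) → (∀ i, e i ≠ 0) → ∃ C : ℝ, ∀ x : ℕ, 2 ≤ x → ∀ F : ℕ → ℂ, Mult F →
        ‖1 / (x : ℂ) * ∑ n ∈ Icc 1 x, (∏ i, f θ (n + h i) ^ e i) * F (n + h₀) * c n‖ ≤
          C / Real.log x := by
  have hP : P = Pool.Agent.H25G.PhP := rfl
  have h1 : ∀ᵐ θ ∂P, ∀ (s : ℕ) (h : Fin s → ℕ) (e : Fin s → ℤ) (h₀ : ℕ), 1 ≤ s → Function.Injective h →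
      (∀ i, h i ≠ h₀) → (∀ i, e i ≠ 0) → ∃ C : ℝ, 0 < C ∧ ∀ x : ℕ, 2 ≤ x → ∀ F : ℕ → ℂ,
      Pool.Agent.H25G.IsM F → (∀ k, ‖F k‖ ≤ 1) →
      ‖∑ n ∈ Icc 1 x, (∏ i, Pool.Agent.H25G.st (fun p => Pool.Agent.H25G.ph (θ p)) (n + h i) ^ e i) *
        F (n + h₀) * c n‖ ≤ C * x / Real.log x := by
    rw [hP, ae_all_iff]
    intro s
    rw [ae_all_iff]
    intro h
    rw [ae_all_iff]
    intro e
    rw [ae_all_iff]
    intro h₀
    by_cases hh : 1 ≤ s ∧ Function.Injective h ∧ (∀ i, h i ≠ h₀) ∧ ∀ i, e i ≠ 0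
    · filter_upwards [Pool.Agent.H25G.shifts Pool.Agent.H25G.stein c hc h e h₀ hh.1 hh.2.1 hh.2.2.1 hh.2.2.2]
        with θ hθ _ _ _ _
      exact hθ
    · exact ae_of_all _ fun θ a1 a2 a3 a4 => absurd ⟨a1, a2, a3, a4⟩ hh
  filter_upwards [h1] with θ hθ s h e h₀ a1 a2 a3 a4
  obtain ⟨C, -, hC⟩ := hθ s h e h₀ a1 a2 a3 a4
  refine ⟨C, fun x hx F hF => ?_⟩
  have hx0 : (0 : ℝ) < x := by exact_mod_cast (by omega : 0 < x)
  -- the value at `0` plays no role
  set F' : ℕ → ℂ := fun n => if n = 0 then 0 else F n with hF'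
  have hm : Pool.Agent.H25G.IsM F' := by
    intro m n hmn
    rcases Nat.eq_zero_or_pos m with h0 | h0
    · subst h0; simp [hF']
    rcases Nat.eq_zero_or_pos n with h0' | h0'
    · subst h0'; simp [hF']
    simp only [hF']
    rw [if_neg (by positivity), if_neg h0.ne', if_neg h0'.ne']
    exact hF.2 m n h0 h0' hmn
  have hb : ∀ k, ‖F' k‖ ≤ 1 := by
    intro k
    simp only [hF']
    split_ifs
    · simp
    · exact hF.1 k
  have h2 := hC x hx F' hm hb
  have h3 : ∑ n ∈ Icc 1 x, (∏ i, Pool.Agent.H25G.st (fun p => Pool.Agent.H25G.ph (θ p)) (n + h i) ^ e i) *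
      F' (n + h₀) * c n = ∑ n ∈ Icc 1 x, (∏ i, f θ (n + h i) ^ e i) * F (n + h₀) * c n := by
    refine Finset.sum_congr rfl fun n hn => ?_
    have hn1 := (mem_Icc.1 hn).1
    simp only [hF']
    rw [if_neg (by omega)]
    rfl
  rw [h3] at h2
  rw [norm_mul, norm_div, norm_one, Complex.norm_natCast, one_div, inv_mul_le_iff₀ hx0]
  refine h2.trans (le_of_eq ?_)
  ring

end Pool.Agent.H25G.Old.AllScalesAlmostEveryFactor
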